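import Pool.Agent.Lib.MP_eee7a8_ag.TB.IfaceA

/-!
# TAGBR, module EXIST: the generic local system exists
-/

open Matrix

namespace Pool.Agent.Lib.MP_eee7a8_ag.TB

namespace AExist

/-- Farey edges. -/
abbrev FE := {p : Cusp × Cusp // |dt p.1 p.2| = 1}

/-- The relation of Farey edges being the same arc. -/
def edgeSetoid (G : Subgroup SLZ) : Setoid FE where
  r p q := SameArc G p.1.1 p.1.2 q.1.1 q.1.2
  iseqv := ⟨fun _ => SameArc.refl _ _, fun h => h.symm, fun h h' => h.trans h'⟩

/-- The set of arcs of the Farey triangulation of the surface. -/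
abbrev Orb (G : Subgroup SLZ) : Type := Quotient (edgeSetoid G)

/-- The class of a Farey edge. -/
def cls (G : Subgroup SLZ) (a b : Cusp) (h : |dt a b| = 1) : Orb G :=
  Quotient.mk (edgeSetoid G) ⟨(a, b), h⟩

theorem cls_eq {G : Subgroup SLZ} {a b c d : Cusp} {h : |dt a b| = 1} {h' : |dt c d| = 1} :
    cls G a b h = cls G c d h' ↔ SameArc G a b c d := by
  unfold cls
  rw [Quotient.eq]
  rfl

/-- The field of rational functions in the lambda lengths of the Farey edges. -/
abbrev KF (G : Subgroup SLZ) : Type := FractionRing (MvPolynomial (Orb G) ℂ)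

open Classical in
/-- The variable of a Farey edge. -/
noncomputable def xx (G : Subgroup SLZ) (a b : Cusp) : KF G :=
  if h : |dt a b| = 1 then
    algebraMap (MvPolynomial (Orb G) ℂ) (KF G) (MvPolynomial.X (cls G a b h)) else 1

theorem xx_of {G : Subgroup SLZ} {a b : Cusp} (h : |dt a b| = 1) :
    xx G a b = algebraMap (MvPolynomial (Orb G) ℂ) (KF G) (MvPolynomial.X (cls G a b h)) := by
  unfold xx
  rw [dif_pos h]

theorem xx_same {G : Subgroup SLZ} {a b c d : Cusp} (h : SameArc G a b c d) :
    xx G a b = xx G c d := by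
  by_cases h1 : |dt a b| = 1
  · have h2 : |dt c d| = 1 := by rw [← h.abs_dt]; exact h1
    rw [xx_of h1, xx_of h2, cls_eq.2 h]
  · have h2 : ¬ |dt c d| = 1 := by rw [← h.abs_dt]; exact h1
    unfold xx
    rw [dif_neg h1, dif_neg h2]

end AExist

open AExist in
theorem exist (hE : ExtendStatement) : ExistStatement := by
  intro G _
  obtain ⟨lam, hsym, hself, hinv, hpt, hx⟩ := hE G (KF G) (xx G)
    (fun a b => xx_same (SameArc.rev a b))
    (fun a b h => by
      rw [xx_of h]
      exact (map_ne_zero_iff _ (IsFractionRing.injective (MvPolynomial (Orb G) ℂ) (KF G))).2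
        (MvPolynomial.X_ne_zero _))
    (fun g hg a b => (xx_same (SameArc.smul hg a b)).symm)
  refine ⟨KF G, inferInstance, inferInstance, ⟨{
    lam := lam, symm := hsym, self := hself, inv := hinv, ptolemy := hpt, free := ?_,
    gen := ?_ }⟩⟩
  · intro m e f h1 h2
    have hc : Function.Injective (fun i : Fin m => cls G (e i) (f i) (h1 i)) := by
      intro i j hij
      by_contra hne
      obtain ⟨g, hg, h⟩ := cls_eq.1 hij
      have := h2 i j hne g hg
      tauto
    have hX := (MvPolynomial.algebraicIndependent_X (Orb G) ℂ).comp _ hc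
    have hX' := hX.map' (f := IsScalarTower.toAlgHom ℂ (MvPolynomial (Orb G) ℂ) (KF G))
      (IsFractionRing.injective (MvPolynomial (Orb G) ℂ) (KF G))
    have he : (fun i => lam (e i) (f i)) =
        ⇑(IsScalarTower.toAlgHom ℂ (MvPolynomial (Orb G) ℂ) (KF G)) ∘
          MvPolynomial.X ∘ fun i => cls G (e i) (f i) (h1 i) := by
      funext i
      rw [hx _ _ (h1 i), xx_of (h1 i)]
      rfl
    rw [he]
    exact hX'
  · rw [eq_top_iff]
    intro z _
    set S : IntermediateField ℂ (KF G) :=
      IntermediateField.adjoin ℂ {z : KF G | ∃ a b, |dt a b| = 1 ∧ z = lam a b} with hS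
    have key : ∀ p : MvPolynomial (Orb G) ℂ,
        algebraMap (MvPolynomial (Orb G) ℂ) (KF G) p ∈ S := by
      intro p
      induction p using MvPolynomial.induction_on with
      | C c =>
        have : algebraMap (MvPolynomial (Orb G) ℂ) (KF G) (MvPolynomial.C c) =
            algebraMap ℂ (KF G) c := by
          rw [IsScalarTower.algebraMap_apply ℂ (MvPolynomial (Orb G) ℂ) (KF G)]
          rfl
        rw [this]
        exact S.algebraMap_mem c
      | add p q hp hq => rw [map_add]; exact S.add_mem hp hq
      | mul_X p i hp =>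
        rw [map_mul]
        refine S.mul_mem hp ?_
        obtain ⟨⟨⟨a, b⟩, hab⟩, rfl⟩ := Quotient.exists_rep i
        apply IntermediateField.subset_adjoin
        refine ⟨a, b, hab, ?_⟩
        rw [hx a b hab, xx_of hab]
        rfl
    obtain ⟨p, q, _, rfl⟩ := IsFractionRing.div_surjective (A := MvPolynomial (Orb G) ℂ) z
    exact S.div_mem (key p) (key q)

end Pool.Agent.Lib.MP_eee7a8_ag.TB
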