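import Pool.Agent.Lib.MP_eee7a8_ag.TB.IfaceA

/-!
# TAGBR, module POL: lambda lengths are Laurent polynomials with coefficients in the naturals
-/

open Matrix

namespace Pool.Agent.Lib.MP_eee7a8_ag.TB

namespace APol

variable {G : Subgroup SLZ} {K : Type} [Field K] [Algebra ℂ K]

theorem lam_same (L : Lam G K) {a b c d : Cusp} (h : SameArc G a b c d) :
    L.lam a b = L.lam c d := by
  obtain ⟨g, hg, ⟨rfl, rfl⟩ | ⟨rfl, rfl⟩⟩ := h
  · rw [L.inv g hg]
  · rw [L.symm, L.inv g hg, L.symm]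

open Classical in
theorem mon_single (L : Lam G K) {ι : Type} [Fintype ι] (T : Fam ι) (i : ι) (n : ℤ) :
    L.mon T (Pi.single i n) = L.lam (T.s i) (T.t i) ^ n := by
  unfold Lam.mon
  rw [Finset.prod_eq_single i]
  · rw [Pi.single_eq_same]
  · intro j _ hj
    rw [Pi.single_eq_of_ne hj, zpow_zero]
  · intro h
    exact absurd (Finset.mem_univ i) h

end APol

open APol in
open Classical in
theorem pol (hC : ChartStatement) (hV : EvnStatement) (hF : FirstStatement) : PolStatement := by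
  intro G K _ _ L hG ι _ T hT
  obtain ⟨hinj, hmul, hadd, hone, hzero, hmon, hne⟩ := hV G K L ι T (hC G K L hG ι T hT)
  have hedge : ∀ a b, T.E G a b → ∃ m : ι → ℤ, L.mon T m = L.lam a b ∧
      L.mon T (-m) = (L.lam a b)⁻¹ ∧ L.lam a b ≠ 0 := by
    rintro a b ⟨i, hi⟩
    refine ⟨Pi.single i 1, ?_, ?_, ?_⟩
    · rw [mon_single, zpow_one, lam_same L hi]
    · rw [← Pi.single_neg, mon_single, _root_.zpow_neg, zpow_one, lam_same L hi]
    · rw [← lam_same L hi]; exact hne i
  have hex : ∀ n : ℕ, ∀ a b : Cusp,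
      Set.ncard {p : Cusp × Cusp | T.E G p.1 p.2 ∧ Cross p.1 p.2 a b} = n →
      ∃ p : LP ι, L.evN T p = L.lam a b := by
    intro n
    induction n using Nat.strong_induction_on with
    | _ n ih =>
      intro a b hn
      by_cases hab : a = b
      · subst hab
        exact ⟨0, by rw [hzero, L.self]⟩
      rcases hT.star a b hab with he | ⟨c, d, hac, had, hcd, hcr⟩
      · obtain ⟨m, hm, -, -⟩ := hedge a b he
        exact ⟨AddMonoidAlgebra.single m 1, by rw [hmon, hm]⟩
      · obtain ⟨h1, h2⟩ := hF G ι T hT a b c d hac had hcd hcr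
        rw [hn] at h1 h2
        obtain ⟨p1, hp1⟩ := ih _ h1 d b rfl
        obtain ⟨p2, hp2⟩ := ih _ h2 c b rfl
        obtain ⟨mac, hac1, -, -⟩ := hedge a c hac
        obtain ⟨mad, had1, -, -⟩ := hedge a d had
        obtain ⟨mcd, -, hcd1, hcd2⟩ := hedge c d hcd
        refine ⟨(AddMonoidAlgebra.single mac 1 * p1 + AddMonoidAlgebra.single mad 1 * p2) *
          AddMonoidAlgebra.single (-mcd) 1, ?_⟩
        rw [hmul, hadd, hmul, hmul, hmon, hmon, hmon, hac1, had1, hcd1, hp1, hp2]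
        have hpt := L.ptolemy a b c d hcr
        rw [L.symm d b, L.symm c b, ← hpt, mul_assoc, mul_inv_cancel₀ hcd2, mul_one]
  choose P hP using fun a b => hex _ a b rfl
  refine ⟨P, ⟨?_, ?_, ?_, ?_, ?_⟩, hP⟩
  · intro a
    apply hinj
    rw [hP, hzero, L.self]
  · intro a b hab
    apply hinj
    rw [hP, hmon]
    obtain ⟨i, hi⟩ := hab
    rw [Fam.del_of hT hi, mon_single, zpow_one, lam_same L hi]
  · intro a b
    apply hinj
    rw [hP, hP, L.symm]
  · intro g hg a b
    apply hinj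
    rw [hP, hP, L.inv g hg]
  · intro a b c d h
    apply hinj
    rw [hmul, hadd, hmul, hmul, hP, hP, hP, hP, hP, hP, L.ptolemy a b c d h]

end Pool.Agent.Lib.MP_eee7a8_ag.TB
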